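import Pool.Agent.Q93.KM.Main

/-!
# The joint Sato-Tate moments of order at most four of several Kloosterman sums, with square-root error, at arbitrary sets of
primes, for almost all systems of integers which arise from arbitrary integers by changing a few digits

The finite-field input: the first four moments of `S(a, 1; p)` over the residues `a` (library `TH375.KL`, with the lower bound for
the fourth moment added in `Q93.KM.Fourth`), Weil's bound (library `H498R2.Kl`), and the law for functions of the residues of such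
systems (library `Q235.FD`).
-/

set_option autoImplicit false

namespace Pool.Agent.Results.MP_6ea630_nt.FewDigitMoments

open Finset Pool.Agent.Q235.FD

/-- The Kloosterman sum `S(a, 1; p)`. -/
noncomputable def kloosterman (p a : ℕ) : ℝ :=
  ∑ x ∈ Ico 1 p, Real.cos (2 * Real.pi * ((((a : ZMod p) * (x : ZMod p) + (x : ZMod p)⁻¹).val : ℕ) : ℝ) / (p : ℝ))

/-- The `k`-th moment of `2 cos u` for the Sato-Tate measure `2 / π sin ^ 2 u du` on `[0, π]`: the Catalan number with the index
`k / 2` for even `k`, and `0` for odd `k`. -/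
noncomputable def moment (k : ℕ) : ℝ := if Even k then (catalan (k / 2) : ℝ) else 0

open Classical in
/-- For all sets `P` of primes in the family: at most `|P| ^ (1 / 2) x ^ δ` of the primes in `P` divide one of the integers
`m j`; and for all exponents `k j ≤ 4` the sum of `∏ (S(m j, 1; p) / p ^ (1 / 2)) ^ k j - ∏ moment (k j)` over the primes in `P` which
divide none of the `m j` is at most `|P| ^ (1 / 2) x ^ δ` in absolute value (`P` not empty). -/
def Good {s B : ℕ} (δ : ℝ) (θ : Sets B) (x : ℕ) (m : Fin s → ℕ) : Prop :=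
  ∀ P ∈ θ.S x, (number P (fun p => ∃ j, p ∣ m j) : ℝ) ≤ Real.sqrt (max 1 P.card) * (x : ℝ) ^ δ ∧
    ∀ k : Fin s → ℕ, (∀ j, k j ≤ 4) →
      |∑ p ∈ P.filter (fun p => ∀ j, ¬ p ∣ m j), (∏ j, (kloosterman p (m j) / Real.sqrt p) ^ k j - ∏ j, moment (k j))| ≤
        Real.sqrt (max 1 P.card) * (x : ℝ) ^ δ

/-- For all `s ≥ 1`, bases `b ≥ 2`, `δ > 0`, `A` and `B`, `Good δ θ x m` holds for almost all `s`-tuples `m` of integers obtained
by changing a few digits of arbitrary integers (`ForAlmostAll`), uniformly in the family `θ` of at most `x ^ B` sets of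
primes up to `x`. -/
theorem result (s : ℕ) (hs : 1 ≤ s) (b : ℕ) (hb : 2 ≤ b) (δ : ℝ) (hδ : 0 < δ) (A B : ℕ) :
    ForAlmostAll (Fin s) b A (Good (s := s) (B := B) δ) := by
  classical
  refine (Pool.Agent.Q93.KM.kloosterman_law s hs hb hδ A B).mono 0 ?_
  intro θ x m _ h P hP
  obtain ⟨h1, h2⟩ := h P hP
  refine ⟨?_, fun k hk => ?_⟩
  · refine le_trans (le_of_eq ?_) ((le_abs_self _).trans h1)
    unfold number Pool.Agent.Q93.KM.dv
    rw [card_filter]
    push_cast
    refine sum_congr rfl fun p _ => ?_
    congr!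
  · refine le_trans (le_of_eq ?_) (h2 k hk)
    congr 1
    rw [sum_filter]
    refine sum_congr rfl fun p _ => ?_
    unfold Pool.Agent.Q93.KM.jt
    by_cases hg : ∃ j, p ∣ m j
    · rw [if_pos hg, if_neg (fun h' => by obtain ⟨j, hj⟩ := hg; exact h' j hj)]
    · rw [if_neg hg, if_pos (fun j hj => hg ⟨j, hj⟩)]
      rfl

end Pool.Agent.Results.MP_6ea630_nt.FewDigitMoments
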