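import Pool.Agent.Q14.HV.Law

/-!
# Joint angles of several Kloosterman sums, for almost all systems of arguments: horizontal means are
vertical means with square-root error, at all scales, along arbitrary sequences of primes

For integers `n_1, ..., n_r` and primes `p` not dividing any of them let
`θ_i = arccos (S(n_i, 1; p) / (2 p^(1/2)))`, and for every `p` let `Φ_p` be an arbitrary function of
`r` angles in `[0, π]` with values in `[-1, 1]`; for instance the indicator function of a product of `r`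
intervals, which may shrink with `p`.

1. For almost all `n` in a box of side `X` (in any position) the mean of `Φ_p(θ_1, ..., θ_r)` over the
   good primes among the first `j` primes of a sequence differs from the mean of the `j` vertical means
   (the means over all residues `a_1, ..., a_r ≠ 0` modulo `p`) by at most `j^(-1/2+δ)`, for all `j ≥ L`
   simultaneously.  The primes are distinct and at most `X^(1/3)`; otherwise they and their order are
   arbitrary.  The constant depends only on `r` and `δ`, not on the functions `Φ_p`.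
2. The vertical means tend to `v` if and only if the horizontal means are near `v` for almost all `n`,
   at all scales and along all such sequences of primes.
-/

set_option autoImplicit false

namespace Pool.Agent.Results.MP_6ea630_nt.JointAnglesAllScales

open Pool.Agent.Q14.HV

/-- The Kloosterman sum `S(a, 1; p)`. -/
noncomputable def kloosterman (p : ℕ) (a : ZMod p) : ℝ :=
  ∑ x ∈ Finset.Ico 1 p,
    Real.cos (2 * Real.pi * (((a * (x : ZMod p) + (x : ZMod p)⁻¹).val : ℕ) : ℝ) / (p : ℝ))

/-- The angle `θ_p(a)` in `[0, π]`. -/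
noncomputable def angle (p : ℕ) (a : ZMod p) : ℝ :=
  Real.arccos (kloosterman p a / (2 * Real.sqrt (p : ℝ)))

variable {r : ℕ}

/-- The residues are different from `0`. -/
def Good (p : ℕ) (a : Fin r → ZMod p) : Prop := ∀ i, a i ≠ 0

/-- The value of `Φ_p` at the `r` angles. -/
noncomputable def value (Φ : ℕ → (Fin r → ℝ) → ℝ) (p : ℕ) (a : Fin r → ZMod p) : ℝ :=
  Φ p fun i => angle p (a i)

/-- The vertical mean at `p`: the mean of the values over all systems of `r` residues different
from `0`. -/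
noncomputable def vertical (Φ : ℕ → (Fin r → ℝ) → ℝ) (p : ℕ) : ℝ :=
  (∑ᶠ a : {a : Fin r → ZMod p // Good p a}, value Φ p a) /
    (Nat.card {a : Fin r → ZMod p // Good p a} : ℝ)

/-- The residues of `n_1, ..., n_r` modulo `p`. -/
def mod (p : ℕ) (n : Fin r → ℤ) : Fin r → ZMod p := fun i => (n i : ZMod p)

open Classical in
/-- The horizontal mean: the mean of the values over the primes, among the first `j` primes of the
sequence `P 0, P 1, P 2, ...`, which divide none of the `n_i`. -/
noncomputable def horizontal (Φ : ℕ → (Fin r → ℝ) → ℝ) (P : ℕ → ℕ) (n : Fin r → ℤ) (j : ℕ) : ℝ :=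
  (∑ i ∈ (Finset.range j).filter (fun i => Good (P i) (mod (P i) n)), value Φ (P i) (mod (P i) n)) /
    (((Finset.range j).filter (fun i => Good (P i) (mod (P i) n))).card : ℝ)

/-- The box of side `X` with the corner `A`. -/
def Box (A : Fin r → ℤ) (X : ℕ) : Set (Fin r → ℤ) := {n | ∀ i, A i ≤ n i ∧ n i < A i + X}

lemma few (r : ℕ) : Few (ι := Fin r) Good (r : ℝ) := by
  classical
  intro p hp
  haveI : Fact p.Prime := ⟨hp⟩
  haveI : NeZero p := ⟨hp.ne_zero⟩
  have hp0 : (0 : ℝ) < p := by exact_mod_cast hp.pos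
  rw [div_mul_eq_mul_div, le_div_iff₀ hp0, Fintype.card_fin]
  have h1 : (Nat.card {a : Fin r → ZMod p // ¬ Good p a}) * p ≤ r * p ^ r := by
    rw [Nat.card_eq_fintype_card, Fintype.card_subtype]
    have h2 : (Finset.univ.filter fun a : Fin r → ZMod p => ¬ Good p a) ⊆
        Finset.univ.biUnion fun i : Fin r => Finset.univ.filter fun a : Fin r → ZMod p => a i = 0 := by
      intro a ha
      rw [Finset.mem_filter] at ha
      have h3 := ha.2
      unfold Good at h3
      push Not at h3
      obtain ⟨i, hi⟩ := h3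
      rw [Finset.mem_biUnion]
      exact ⟨i, Finset.mem_univ _, by simpa using hi⟩
    have h3 : ∀ i : Fin r, (Finset.univ.filter fun a : Fin r → ZMod p => a i = 0).card * p =
        p ^ r := by
      intro i
      have h4 : (Finset.univ.filter fun a : Fin r → ZMod p => a i = 0) =
          Fintype.piFinset fun k : Fin r => if k = i then ({0} : Finset (ZMod p)) else Finset.univ := by
        ext a
        rw [Finset.mem_filter, Fintype.mem_piFinset]
        constructor
        · rintro ⟨-, h⟩ k
          split_ifs with hk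
          · rw [hk, h]; simp
          · exact Finset.mem_univ _
        · intro h
          have := h i
          rw [if_pos rfl] at this
          exact ⟨Finset.mem_univ _, by simpa using this⟩
      rw [h4, Fintype.card_piFinset]
      have h5 : ∀ k : Fin r, (if k = i then ({0} : Finset (ZMod p)) else Finset.univ).card =
          if k = i then 1 else p := by
        intro k
        split_ifs
        · simp
        · rw [Finset.card_univ, ZMod.card]
      rw [Finset.prod_congr rfl fun k _ => h5 k, Finset.prod_ite, Finset.prod_const_one, one_mul,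
        Finset.prod_const, Finset.filter_ne' , Finset.card_erase_of_mem (Finset.mem_univ _),
        Finset.card_univ, Fintype.card_fin, ← pow_succ]
      congr 1
      have := i.isLt
      omega
    calc _ ≤ (∑ i : Fin r, (Finset.univ.filter fun a : Fin r → ZMod p => a i = 0).card) * p :=
          Nat.mul_le_mul_right _ ((Finset.card_le_card h2).trans Finset.card_biUnion_le)
      _ = r * p ^ r := by
          rw [Finset.sum_mul, Finset.sum_congr rfl fun i _ => h3 i, Finset.sum_const,
            Finset.card_univ, Fintype.card_fin, smul_eq_mul]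
  exact_mod_cast h1

lemma bounded {Φ : ℕ → (Fin r → ℝ) → ℝ}
    (hΦ : ∀ p x, (∀ i, 0 ≤ x i ∧ x i ≤ Real.pi) → |Φ p x| ≤ 1) (p : ℕ) (a : Fin r → ZMod p) :
    |value Φ p a| ≤ 1 :=
  hΦ _ _ fun _ => ⟨Real.arccos_nonneg _, Real.arccos_le_pi _⟩

lemma card_le {A : Fin r → ℤ} {X : ℕ} (Q : (Fin r → ℤ) → Prop) [DecidablePred Q] :
    Set.ncard {n | n ∈ Box A X ∧ Q n} = ((Pool.Agent.Q14.ST.box A X).filter Q).card := by
  rw [← Set.ncard_coe_finset]
  congr 1
  ext n
  rw [Finset.mem_coe, Finset.mem_filter, Pool.Agent.Q14.ST.box, Fintype.mem_piFinset]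
  simp only [Set.mem_ofPred_eq, Finset.mem_Ico, Box]

/-- **Joint angles of Kloosterman sums for almost all systems of arguments.** -/
theorem result (r : ℕ) :
    (∀ δ : ℝ, 0 < δ → δ ≤ 1 / 2 → ∃ C : ℝ, ∀ Φ : ℕ → (Fin r → ℝ) → ℝ,
      (∀ p x, (∀ i, 0 ≤ x i ∧ x i ≤ Real.pi) → |Φ p x| ≤ 1) →
      ∀ (X L J Q : ℕ) (A : Fin r → ℤ) (P : ℕ → ℕ),
      1 ≤ X → 1 ≤ L → Q ^ 3 ≤ X → (∀ i < J, (P i).Prime ∧ P i ≤ Q) → Set.InjOn P (Set.Iio J) →
      (Set.ncard {n | n ∈ Box A X ∧ ∃ j, L ≤ j ∧ j ≤ J ∧ (j : ℝ) ^ (-(1 / 2) + δ) <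
          |horizontal Φ P n j - (∑ i ∈ Finset.range j, vertical Φ (P i)) / j|} : ℝ) ≤
        C / (L : ℝ) ^ (δ / 2) * (X : ℝ) ^ r) ∧
    ∀ Φ : ℕ → (Fin r → ℝ) → ℝ, (∀ p x, (∀ i, 0 ≤ x i ∧ x i ≤ Real.pi) → |Φ p x| ≤ 1) →
      ∀ v : ℝ,
      (∀ ε : ℝ, 0 < ε → ∃ p₀ : ℕ, ∀ p : ℕ, p.Prime → p₀ ≤ p → |vertical Φ p - v| ≤ ε) ↔
      ∀ ε : ℝ, 0 < ε → ∃ C : ℝ, ∀ (X L J Q : ℕ) (A : Fin r → ℤ) (P : ℕ → ℕ),
        1 ≤ X → 1 ≤ L → Q ^ 3 ≤ X → (∀ i < J, (P i).Prime ∧ P i ≤ Q) →
        Set.InjOn P (Set.Iio J) →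
        (Set.ncard {n | n ∈ Box A X ∧ ∃ j, L ≤ j ∧ j ≤ J ∧ ε < |horizontal Φ P n j - v|} : ℝ) ≤
          C / (L : ℝ) ^ ((1 : ℝ) / 8) * (X : ℝ) ^ r := by
  classical
  have hc : (0 : ℝ) ≤ (r : ℝ) := Nat.cast_nonneg _
  constructor
  · intro δ hδ hδ1
    obtain ⟨C, -, hC⟩ := hvGood (Fin r) hδ hδ1 (zero_le_one (α := ℝ)) hc
    refine ⟨C, fun Φ hΦ X L J Q A P hX hL hQX hP hinj => ?_⟩
    have h := hC Good (value Φ) (fun p _ a _ => bounded hΦ p a) (few r) X L J Q A P hL hX hQX hP hinj
      ((Pool.Agent.Q14.ST.box A X).filter fun n => ∃ j, L ≤ j ∧ j ≤ J ∧ (j : ℝ) ^ (-(1 / 2) + δ) <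
          |horizontal Φ P n j - (∑ i ∈ Finset.range j, vertical Φ (P i)) / j|)
      (Finset.filter_subset _ _) (fun n hn => (Finset.mem_filter.1 hn).2)
    rw [card_le]
    refine h.trans (le_of_eq ?_)
    rw [Fintype.card_fin, mul_one_div]
  · intro Φ hΦ v
    rw [show (∀ ε : ℝ, 0 < ε → ∃ p₀ : ℕ, ∀ p : ℕ, p.Prime → p₀ ≤ p → |vertical Φ p - v| ≤ ε) ↔
      _ from law_iff (Fin r) (zero_le_one (α := ℝ)) hc Good (value Φ)
        (fun p _ a _ => bounded hΦ p a) (few r) v]
    refine forall_congr' fun ε => forall_congr' fun hε => exists_congr fun C => ?_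
    refine forall_congr' fun X => forall_congr' fun L => forall_congr' fun J => forall_congr' fun Q =>
      forall_congr' fun A => forall_congr' fun P => ?_
    rw [Fintype.card_fin]
    constructor
    · intro h hX hL hQX hP hinj
      rw [card_le]
      refine (h hL hX hQX hP hinj).trans (le_of_eq ?_)
      rw [mul_one_div]
    · intro h hL hX hQX hP hinj
      have h' := h hX hL hQX hP hinj
      rw [card_le] at h'
      refine le_trans ?_ (h'.trans (le_of_eq ?_))
      · exact le_rfl
      · rw [mul_one_div]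

end Pool.Agent.Results.MP_6ea630_nt.JointAnglesAllScales
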