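import Pool.Agent.Q56.WL.Kl

/-!
# The joint Sato-Tate moments of order at most four of several Kloosterman sums, with square-root error, at arbitrary sets of
primes, for ALL systems of arguments in windows near powers with non-integral exponents

Let `n = (n_1, ..., n_s)` be any integers in the windows of length `y ^ W` around the real numbers `β j + w j * i (μ j) ^ e j`,
where `i = (i_1, ..., i_m)` runs through `{1, ..., x} ^ m`, the exponents `e j > 1` are not integers, and two arguments which
depend on the same index have different exponents (for instance `m = 1`, the arguments near `(i ^ (3/2), i ^ (5/2))`). For almost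
all index vectors and ALL integers in the windows, the joint moments of order at most four in each variable of the normalised
Kloosterman sums `S(n_j, 1; p) / p ^ (1/2)` over the primes of an arbitrary set are those of independent Sato-Tate random
variables with a square-root error.

The finite-field input: the first four moments of `S(a, 1; p)` over the residues `a` (library `TH375.KL`, with the lower bound for
the fourth moment added in `Q93.KM.Fourth`), Weil's bound (library `H498R2.Kl`), and the moments of sums of functions of the
residues of such tuples (`Q56.WL`: products of Fejér kernels, and van der Corput's method for the exponential sums over the real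
points).
-/

set_option autoImplicit false

namespace Pool.Agent.Results.MP_6ea630_nt.NearPowers

open Finset Pool.Agent.Q56.WL
open Pool.Agent.Q235.FD (Sets number)

/-- The Kloosterman sum `S(a, 1; p)`. -/
noncomputable def kloosterman (p a : ℕ) : ℝ :=
  ∑ x ∈ Ico 1 p, Real.cos (2 * Real.pi * ((((a : ZMod p) * (x : ZMod p) + (x : ZMod p)⁻¹).val : ℕ) : ℝ) / (p : ℝ))

/-- The `k`-th moment of `2 cos u` for the Sato-Tate measure `2 / π sin ^ 2 u du` on `[0, π]`: the Catalan number with the index
`k / 2` for even `k`, and `0` for odd `k`. -/
noncomputable def moment (k : ℕ) : ℝ := if Even k then (catalan (k / 2) : ℝ) else 0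

open Classical in
/-- For all sets `P` of primes in the family: at most `|P| ^ (1 / 2) z ^ δ` of the primes in `P` divide one of the integers
`n j`; and for all exponents `k j ≤ 4` the sum of `∏ (S(n j, 1; p) / p ^ (1 / 2)) ^ k j - ∏ moment (k j)` over the primes in `P` which
divide none of the `n j` is at most `|P| ^ (1 / 2) z ^ δ` in absolute value (`P` not empty). -/
def Good {s B : ℕ} (δ : ℝ) (θ : Sets B) (z : ℕ) (n : Fin s → ℕ) : Prop :=
  ∀ P ∈ θ.S z, (number P (fun p => ∃ j, p ∣ n j) : ℝ) ≤ Real.sqrt (max 1 P.card) * (z : ℝ) ^ δ ∧
    ∀ k : Fin s → ℕ, (∀ j, k j ≤ 4) →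
      |∑ p ∈ P.filter (fun p => ∀ j, ¬ p ∣ n j), (∏ j, (kloosterman p (n j) / Real.sqrt p) ^ k j - ∏ j, moment (k j))| ≤
        Real.sqrt (max 1 P.card) * (z : ℝ) ^ δ

/-- Let `s ≥ 1`, and let the exponents `e`, the coefficients `w` and the map `μ` from the `s` arguments to the `m` indices be as
in `Setting`. For all `δ > 0`, `A`, `W` and `B` the property `Good δ θ z n` holds for almost all index vectors and ALL integers
`n` in the windows of length `y ^ W` (`ForAlmostAll`), uniformly in the shifts `β` and in the family `θ` of at most `z ^ B` sets of
primes up to `z`. -/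
theorem result (s : ℕ) (_hs : 1 ≤ s) (m : ℕ) (e w : Fin s → ℝ) (μ : Fin s → Fin m) (hs : Setting e w μ)
    (δ : ℝ) (hδ : 0 < δ) (A W B : ℕ) : ForAlmostAll e w μ A W (Good (s := s) (B := B) δ) := by
  classical
  refine (kloosterman_near s hs hδ A W B).mono 0 ?_
  intro θ x m _ h P hP
  obtain ⟨h1, h2⟩ := h P hP
  refine ⟨?_, fun k hk => ?_⟩
  · refine le_trans (le_of_eq ?_) ((le_abs_self _).trans h1)
    unfold number Pool.Agent.Q93.KM.dv
    rw [card_filter]
    push_cast
    refine sum_congr rfl fun p _ => ?_
    congr!
  · refine le_trans (le_of_eq ?_) (h2 k hk)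
    congr 1
    rw [sum_filter]
    refine sum_congr rfl fun p _ => ?_
    unfold Pool.Agent.Q93.KM.jt
    by_cases hg : ∃ j, p ∣ m j
    · rw [if_pos hg, if_neg (fun h' => by obtain ⟨j, hj⟩ := hg; exact h' j hj)]
    · rw [if_neg hg, if_pos (fun j hj => hg ⟨j, hj⟩)]
      rfl

end Pool.Agent.Results.MP_6ea630_nt.NearPowers
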