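import Pool.Agent.Results.MP_6ea630_nt.JointAnglesAllScales
import Pool.Agent.Q44.Appr

/-!
# Joint Kloosterman angles of the numerators and the denominators of the good rational approximations

For integers `n_1, ..., n_r` and primes `p` not dividing any of them let `θ_i = arccos (S(n_i, 1; p) / (2 p^(1/2)))`, and
for every `p` let `Φ_p` be an arbitrary function of `r` angles with values in `[-1, 1]`. The law for `(n_1, ..., n_r)` at
height `q` says: for all `j ≥ q ^ κ` such that the first `j` primes of a sequence are at most `q ^ (1/3)`, the mean of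
`Φ_p(θ_1, ..., θ_r)` over the good ones of them is the mean of the `j` vertical means up to `j ^ (-1/2 + δ)`.

We show that the law holds for the integers `(n_1, ..., n_(d+1)) = M x`, `M` any nonsingular integer matrix, for all but
finitely many integer vectors `x = (x_0, ..., x_d)` with `|α_j - x_j / x_0| ≤ x_0 ^ (-τ)` for all `j`, at height `x_0`,
for almost every `α` in `ℝ ^ d` if `τ d > d + 1 - c` (for instance for the approximations of Dirichlet's theorem), and in
general outside a set of dimension at most `(d + 1 - c) / τ`. For `d = 1` and for almost every real number `α` it holds for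
the pairs `(p, q)` of the numerator and the denominator of all but finitely many convergents of the continued fraction: the
angles of `S(p, 1; l)` and `S(q, 1; l)` are jointly distributed over the primes `l` as the vertical means prescribe.
-/

set_option autoImplicit false

namespace Pool.Agent.Results.MP_6ea630_nt.NumeratorsAndDenominators

open MeasureTheory Filter
open Pool.Agent.Results.MP_6ea630_nt.JointAnglesAllScales (vertical horizontal Box)
open Pool.Agent.Q44.CF (Near Few cnt box mem_box dim_of_few ae_of_few convergents_of_few ae_of_dim)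

/-- The law for the integers `n` at height `q`: for all `j` with `q ^ κ ≤ j` such that the primes `P 0, ..., P (j - 1)` are
at most `q ^ (1/3)`, the horizontal mean over them differs from the mean of the vertical means by at most
`j ^ (-1/2 + δ)`. -/
def Law {r : ℕ} (Φ : ℕ → (Fin r → ℝ) → ℝ) (P : ℕ → ℕ) (δ κ : ℝ) (q : ℤ) (n : Fin r → ℤ) : Prop :=
  ∀ j : ℕ, (q : ℝ) ^ κ ≤ j → (∀ i < j, ((P i : ℤ)) ^ 3 ≤ q) →
    |horizontal Φ P n j - (∑ i ∈ Finset.range j, vertical Φ (P i)) / j| ≤ (j : ℝ) ^ (-(1 / 2) + δ)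

lemma box_finite {r : ℕ} (A : Fin r → ℤ) (X : ℕ) : (Box A X).Finite := by
  refine (Set.Finite.pi (t := fun i : Fin r => Set.Icc (A i) (A i + X)) fun _ => Set.finite_Icc _ _).subset ?_
  intro n hn
  rw [Set.mem_pi]
  intro i _
  exact Set.mem_Icc.2 ⟨(hn i).1, (hn i).2.le⟩

lemma cnt_split {d N : ℕ} (B : (Fin (d + 1) → ℤ) → Prop) (S1 S2 : Finset (Fin (d + 1) → ℤ))
    (h : ∀ x ∈ box d N, 1 ≤ x 0 → B x → x ∈ S1 ∨ x ∈ S2) : cnt d B N ≤ S1.card + S2.card := by
  classical
  unfold cnt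
  refine (Finset.card_le_card ?_).trans (Finset.card_union_le _ _)
  intro x hx
  rw [Finset.mem_filter] at hx
  rw [Finset.mem_union]
  exact h x hx.1 hx.2.1 hx.2.2

lemma few_bad (d : ℕ) (Φ : ℕ → (Fin (d + 1) → ℝ) → ℝ)
    (hΦ : ∀ p x, (∀ i, 0 ≤ x i ∧ x i ≤ Real.pi) → |Φ p x| ≤ 1) (P : ℕ → ℕ) (hP : ∀ i, (P i).Prime)
    (hinj : Function.Injective P) (δ κ : ℝ) (hδ : 0 < δ) (hδ1 : δ ≤ 1 / 2) (hκ : 0 < κ)
    (M : Matrix (Fin (d + 1)) (Fin (d + 1)) ℤ) (hM : M.det ≠ 0) :
    Few d ((d : ℝ) + 1 - min (1 / 2) (κ * δ / 4)) (fun x => ¬ Law Φ P δ κ (x 0) (M.mulVec x)) := by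
  classical
  intro t ht
  obtain ⟨C, hC⟩ := (JointAnglesAllScales.result (d + 1)).1 δ hδ hδ1
  set K : ℕ := (∑ i, ∑ j, (M i j).natAbs) + 1 with hK
  have hK1 : 1 ≤ K := by omega
  have hKR : (1 : ℝ) ≤ K := by exact_mod_cast hK1
  refine ⟨3 ^ d + |C| * (3 * K) ^ (d + 1), fun N hN => ?_⟩
  have hN1 : (1 : ℝ) ≤ N := by exact_mod_cast hN
  have hN0 : (0 : ℝ) < N := by linarith
  -- the parameters
  set Q : ℕ := Nat.findGreatest (fun q => q ^ 3 ≤ N) N with hQ
  have hQ3 : Q ^ 3 ≤ N := Nat.findGreatest_spec (P := fun q => q ^ 3 ≤ N) (Nat.zero_le N) (by norm_num)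
  have hQmax : ∀ p : ℕ, p ^ 3 ≤ N → p ≤ Q := by
    intro p hp
    have h1 : p ≤ N := (Nat.le_self_pow (by norm_num) p).trans hp
    exact Nat.le_findGreatest h1 hp
  set J : ℕ := Nat.findGreatest (fun j => ∀ i < j, P i ≤ Q) (Q + 1) with hJ
  have hJ1 : ∀ i < J, P i ≤ Q :=
    Nat.findGreatest_spec (P := fun j => ∀ i < j, P i ≤ Q) (Nat.zero_le (Q + 1)) (fun i hi => by omega)
  have hJmax : ∀ j : ℕ, (∀ i < j, P i ≤ Q) → j ≤ J := by
    intro j hj
    have h1 : j ≤ Q + 1 := by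
      have h2 : (Finset.range j).card ≤ (Finset.range (Q + 1)).card :=
        Finset.card_le_card_of_injOn P (fun i hi => by
          rw [Finset.coe_range, Set.mem_Iio] at *
          have := hj i hi
          omega) hinj.injOn
      rwa [Finset.card_range, Finset.card_range] at h2
    exact Nat.le_findGreatest h1 hj
  set L : ℕ := ⌈(N : ℝ) ^ (κ / 2)⌉₊ with hL
  have hL0 : 1 ≤ L := Nat.one_le_iff_ne_zero.2 (by
    rw [hL]
    have : 0 < ⌈(N : ℝ) ^ (κ / 2)⌉₊ := Nat.ceil_pos.2 (by positivity)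
    omega)
  set X : ℕ := 2 * (K * N) + 1 with hX
  have hXN : Q ^ 3 ≤ X := by
    have : N ≤ K * N := Nat.le_mul_of_pos_left N (by omega)
    omega
  have hmain := hC Φ hΦ X L J Q (fun _ => -((K * N : ℕ) : ℤ)) P (by omega) hL0 hXN
    (fun i hi => ⟨hP i, hJ1 i hi⟩) hinj.injOn
  set T : Set (Fin (d + 1) → ℤ) := {n | n ∈ Box (fun _ => -((K * N : ℕ) : ℤ)) X ∧ ∃ j, L ≤ j ∧ j ≤ J ∧
    (j : ℝ) ^ (-(1 / 2) + δ) < |horizontal Φ P n j - (∑ i ∈ Finset.range j, vertical Φ (P i)) / j|} with hT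
  have hTf : T.Finite := (box_finite _ _).subset fun n hn => hn.1
  -- the two kinds of vectors
  set B1 : Finset (Fin (d + 1) → ℤ) := (box d N).filter fun x => 1 ≤ x 0 ∧ (x 0 : ℝ) < (N : ℝ) ^ (1 / 2 : ℝ) with hB1
  set B2 : Finset (Fin (d + 1) → ℤ) := (box d N).filter fun x => (N : ℝ) ^ (1 / 2 : ℝ) ≤ x 0 ∧
    ¬ Law Φ P δ κ (x 0) (M.mulVec x) with hB2
  have hsplit : cnt d (fun x => ¬ Law Φ P δ κ (x 0) (M.mulVec x)) N ≤ B1.card + B2.card := by
    refine cnt_split _ _ _ fun x hx1 hx2 hx3 => ?_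
    rw [hB1, hB2, Finset.mem_filter, Finset.mem_filter]
    rcases lt_or_ge (x 0 : ℝ) ((N : ℝ) ^ (1 / 2 : ℝ)) with h | h
    · exact Or.inl ⟨hx1, hx2, h⟩
    · exact Or.inr ⟨hx1, h, hx3⟩
  have hcard1 : (B1.card : ℝ) ≤ 3 ^ d * (N : ℝ) ^ ((d : ℝ) + 1 / 2) := by
    set s : ℕ := ⌊(N : ℝ) ^ (1 / 2 : ℝ)⌋₊ with hs
    have h1 : B1 ⊆ Fintype.piFinset (Fin.cons (Finset.Icc (1 : ℤ) s) (fun _ => Finset.Icc (-(N : ℤ)) N) :
        Fin (d + 1) → Finset ℤ) := by
      intro x hx
      rw [hB1, Finset.mem_filter, mem_box] at hx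
      rw [Fintype.mem_piFinset]
      intro i
      refine Fin.cases ?_ (fun k => ?_) i
      · rw [Fin.cons_zero, Finset.mem_Icc]
        refine ⟨hx.2.1, ?_⟩
        have h2 : (((x 0).toNat : ℕ) : ℝ) ≤ (N : ℝ) ^ (1 / 2 : ℝ) := by
          have h3 : (((x 0).toNat : ℤ) : ℝ) = (x 0 : ℝ) := by rw [Int.toNat_of_nonneg (by omega)]
          have h4 : (((x 0).toNat : ℕ) : ℝ) = (x 0 : ℝ) := by exact_mod_cast h3
          rw [h4]
          exact hx.2.2.le
        have h5 := Nat.le_floor h2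
        omega
      · rw [Fin.cons_succ, Finset.mem_Icc]
        exact abs_le.1 (hx.1 k.succ)
    have h2 := Finset.card_le_card h1
    rw [Fintype.card_piFinset, Fin.prod_univ_succ] at h2
    simp only [Fin.cons_zero, Fin.cons_succ, Int.card_Icc, Finset.prod_const, Finset.card_univ, Fintype.card_fin] at h2
    have e1 : ((s : ℤ) + 1 - 1).toNat = s := by omega
    have e2 : ((N : ℤ) + 1 - -(N : ℤ)).toNat = 2 * N + 1 := by omega
    rw [e1, e2] at h2
    have h3 : (B1.card : ℝ) ≤ (s : ℝ) * ((2 * N + 1 : ℕ) : ℝ) ^ d := by exact_mod_cast h2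
    have h4 : (s : ℝ) ≤ (N : ℝ) ^ (1 / 2 : ℝ) := Nat.floor_le (by positivity)
    have h5 : (((2 * N + 1 : ℕ) : ℝ)) ≤ 3 * N := by push_cast; linarith
    calc (B1.card : ℝ) ≤ (s : ℝ) * ((2 * N + 1 : ℕ) : ℝ) ^ d := h3
      _ ≤ (N : ℝ) ^ (1 / 2 : ℝ) * (3 * N) ^ d :=
          mul_le_mul h4 (pow_le_pow_left₀ (Nat.cast_nonneg _) h5 d) (by positivity) (by positivity)
      _ = 3 ^ d * (N : ℝ) ^ ((d : ℝ) + 1 / 2) := by
          rw [mul_pow, Real.rpow_add hN0, Real.rpow_natCast]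
          ring
  have hcard2 : (B2.card : ℝ) ≤ |C| * (3 * K) ^ (d + 1) * (N : ℝ) ^ ((d : ℝ) + 1 - κ * δ / 4) := by
    have h1 : B2.card ≤ T.ncard := by
      rw [← Set.ncard_coe_finset]
      refine Set.ncard_le_ncard_of_injOn M.mulVec ?_ ?_ hTf
      · intro x hx
        rw [hB2, Finset.mem_coe, Finset.mem_filter, mem_box] at hx
        obtain ⟨hxN, hx0, hbad⟩ := hx
        have hx0N : (x 0 : ℝ) ≤ N := by
          have := (abs_le.1 (hxN 0)).2
          exact_mod_cast this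
        unfold Law at hbad
        push Not at hbad
        obtain ⟨j, hj1, hj2, hj3⟩ := hbad
        refine ⟨fun i => ?_, j, ?_, ?_, hj3⟩
        · have h2 : |(M.mulVec x) i| ≤ ((K * N : ℕ) : ℤ) := by
            rw [Matrix.mulVec, dotProduct]
            refine (Finset.abs_sum_le_sum_abs _ _).trans ?_
            have h3 : ∀ k ∈ Finset.univ, |M i k * x k| ≤ ((M i k).natAbs : ℤ) * N := by
              intro k _
              rw [abs_mul, Int.natCast_natAbs]
              exact mul_le_mul_of_nonneg_left (hxN k) (abs_nonneg _)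
            refine (Finset.sum_le_sum h3).trans ?_
            rw [← Finset.sum_mul]
            push_cast
            refine mul_le_mul_of_nonneg_right ?_ (by positivity)
            have h4 : (∑ k, (M i k).natAbs) ≤ K := by
              have h5 : (∑ k, (M i k).natAbs) ≤ ∑ i, ∑ k, (M i k).natAbs :=
                Finset.single_le_sum (f := fun i => ∑ k, (M i k).natAbs) (fun _ _ => Nat.zero_le _) (Finset.mem_univ i)
              omega
            have h6 : (((∑ k, (M i k).natAbs : ℕ)) : ℤ) ≤ (K : ℤ) := Int.ofNat_le.2 h4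
            push_cast at h6
            exact h6
          have h3 := abs_le.1 h2
          refine ⟨h3.1, ?_⟩
          rw [hX]
          push_cast at h3 ⊢
          linarith [h3.2]
        · refine Nat.ceil_le.2 ?_
          refine le_trans ?_ hj1
          calc (N : ℝ) ^ (κ / 2) = ((N : ℝ) ^ (1 / 2 : ℝ)) ^ κ := by
                rw [← Real.rpow_mul hN0.le]
                congr 1
                ring
            _ ≤ (x 0 : ℝ) ^ κ := Real.rpow_le_rpow (by positivity) hx0 hκ.le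
        · refine hJmax j fun i hi => hQmax _ ?_
          have h2 := hj2 i hi
          have h3 : ((P i : ℤ)) ^ 3 ≤ N := h2.trans (abs_le.1 (hxN 0)).2
          exact_mod_cast h3
      · intro x _ y _ hxy
        exact Matrix.mulVec_injective_of_det_ne_zero hM hxy
    have h2 : (B2.card : ℝ) ≤ C / (L : ℝ) ^ (δ / 2) * (X : ℝ) ^ (d + 1) :=
      (Nat.cast_le.2 h1).trans hmain
    have hLr : (N : ℝ) ^ (κ * δ / 4) ≤ (L : ℝ) ^ (δ / 2) := by
      calc (N : ℝ) ^ (κ * δ / 4) = ((N : ℝ) ^ (κ / 2)) ^ (δ / 2) := by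
            rw [← Real.rpow_mul hN0.le]
            congr 1
            ring
        _ ≤ (L : ℝ) ^ (δ / 2) := Real.rpow_le_rpow (by positivity) (Nat.le_ceil _) (by linarith)
    have hXr : (X : ℝ) ≤ 3 * K * N := by
      rw [hX]
      push_cast
      nlinarith
    have hpos : 0 < (N : ℝ) ^ (κ * δ / 4) := by positivity
    calc (B2.card : ℝ) ≤ C / (L : ℝ) ^ (δ / 2) * (X : ℝ) ^ (d + 1) := h2
      _ ≤ |C| / (N : ℝ) ^ (κ * δ / 4) * (3 * K * N) ^ (d + 1) := by
          refine mul_le_mul ?_ (pow_le_pow_left₀ (Nat.cast_nonneg _) hXr _) (by positivity) (by positivity)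
          calc C / (L : ℝ) ^ (δ / 2) ≤ |C| / (L : ℝ) ^ (δ / 2) :=
                div_le_div_of_nonneg_right (le_abs_self C) (by positivity)
            _ ≤ |C| / (N : ℝ) ^ (κ * δ / 4) := div_le_div_of_nonneg_left (abs_nonneg C) hpos hLr
      _ = |C| * (3 * K) ^ (d + 1) * (N : ℝ) ^ ((d : ℝ) + 1 - κ * δ / 4) := by
          rw [Real.rpow_sub hN0, mul_pow (3 * (K : ℝ)) (N : ℝ)]
          have e1 : (N : ℝ) ^ ((d : ℝ) + 1) = (N : ℝ) ^ (d + 1) := by
            exact_mod_cast Real.rpow_natCast (N : ℝ) (d + 1)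
          rw [e1]
          ring
  have hm1 : min (1 / 2) (κ * δ / 4) ≤ 1 / 2 := min_le_left _ _
  have hm2 : min (1 / 2) (κ * δ / 4) ≤ κ * δ / 4 := min_le_right _ _
  calc (cnt d (fun x => ¬ Law Φ P δ κ (x 0) (M.mulVec x)) N : ℝ) ≤ (B1.card : ℝ) + B2.card := by
        exact_mod_cast hsplit
    _ ≤ 3 ^ d * (N : ℝ) ^ ((d : ℝ) + 1 / 2) + |C| * (3 * K) ^ (d + 1) * (N : ℝ) ^ ((d : ℝ) + 1 - κ * δ / 4) :=
        add_le_add hcard1 hcard2
    _ ≤ 3 ^ d * (N : ℝ) ^ t + |C| * (3 * K) ^ (d + 1) * (N : ℝ) ^ t := by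
        refine add_le_add ?_ ?_
        · exact mul_le_mul_of_nonneg_left (Real.rpow_le_rpow_of_exponent_le hN1 (by linarith)) (by positivity)
        · exact mul_le_mul_of_nonneg_left (Real.rpow_le_rpow_of_exponent_le hN1 (by linarith)) (by positivity)
    _ = _ := by ring

/-- **Theorem.** Let `0 < δ ≤ 1/2` and `κ > 0`. There is `0 < c ≤ 1/2` with the following property. Let `P` be a sequence
of distinct primes and let `Φ_p` be functions of `d + 1` angles with values in `[-1, 1]`.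
1. For all `τ > 0`, the points `α` of `ℝ ^ d` such that for some nonsingular integer matrix `M` infinitely many integer
   vectors `x` with `x_0 ≥ 1`, `|α_j - x_j / x_0| ≤ x_0 ^ (-τ)` for all `j`, fail to satisfy the law for `M x` at height
   `x_0`, form a set of Hausdorff dimension at most `(d + 1 - c) / τ`; it has measure `0` if `d ≥ 1`, `d + 1 - c < τ d`.
2. `d = 1`: for almost every real number `α`, for all nonsingular integer matrices `M` and all but finitely many
   convergents `p / q` of the continued fraction of `α` the law holds for `M (q, p)` at height `q`; the irrational numbers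
   for which this fails form a set of Hausdorff dimension at most `1 - c / 2`. -/
theorem result (δ κ : ℝ) (hδ : 0 < δ) (hδ1 : δ ≤ 1 / 2) (hκ : 0 < κ) :
    ∃ c : ℝ, 0 < c ∧ c ≤ 1 / 2 ∧
      (∀ (d : ℕ) (Φ : ℕ → (Fin (d + 1) → ℝ) → ℝ), (∀ p x, (∀ i, 0 ≤ x i ∧ x i ≤ Real.pi) → |Φ p x| ≤ 1) →
        ∀ P : ℕ → ℕ, (∀ i, (P i).Prime) → Function.Injective P → ∀ τ : ℝ, 0 < τ →
        dimH {α : Fin d → ℝ | ¬ ∀ M : Matrix (Fin (d + 1)) (Fin (d + 1)) ℤ, M.det ≠ 0 →
          {x : Fin (d + 1) → ℤ | (1 ≤ x 0 ∧ ∀ j : Fin d, |α j - (x j.succ : ℝ) / (x 0 : ℝ)| ≤ (x 0 : ℝ) ^ (-τ)) ∧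
            ¬ Law Φ P δ κ (x 0) (M.mulVec x)}.Finite} ≤ ENNReal.ofReal ((d + 1 - c) / τ) ∧
        (1 ≤ d → (d : ℝ) + 1 - c < τ * d → ∀ᵐ α : Fin d → ℝ,
          ∀ M : Matrix (Fin (d + 1)) (Fin (d + 1)) ℤ, M.det ≠ 0 →
          {x : Fin (d + 1) → ℤ | (1 ≤ x 0 ∧ ∀ j : Fin d, |α j - (x j.succ : ℝ) / (x 0 : ℝ)| ≤ (x 0 : ℝ) ^ (-τ)) ∧
            ¬ Law Φ P δ κ (x 0) (M.mulVec x)}.Finite)) ∧
      (∀ Φ : ℕ → (Fin 2 → ℝ) → ℝ, (∀ p x, (∀ i, 0 ≤ x i ∧ x i ≤ Real.pi) → |Φ p x| ≤ 1) →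
        ∀ P : ℕ → ℕ, (∀ i, (P i).Prime) → Function.Injective P →
        dimH {α : ℝ | Irrational α ∧ ¬ ∀ M : Matrix (Fin 2) (Fin 2) ℤ, M.det ≠ 0 → ∀ᶠ n in atTop,
          Law Φ P δ κ ((α.convergent n).den : ℤ) (M.mulVec ![((α.convergent n).den : ℤ), (α.convergent n).num])} ≤
            ENNReal.ofReal (1 - c / 2) ∧
        ∀ᵐ α : ℝ, ∀ M : Matrix (Fin 2) (Fin 2) ℤ, M.det ≠ 0 → ∀ᶠ n in atTop,
          Law Φ P δ κ ((α.convergent n).den : ℤ) (M.mulVec ![((α.convergent n).den : ℤ), (α.convergent n).num])) := by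
  classical
  have hcount : ∀ d : ℕ, Countable {M : Matrix (Fin (d + 1)) (Fin (d + 1)) ℤ // M.det ≠ 0} := by
    intro d
    have : Countable (Matrix (Fin (d + 1)) (Fin (d + 1)) ℤ) :=
      inferInstanceAs (Countable (Fin (d + 1) → Fin (d + 1) → ℤ))
    infer_instance
  have hc1 : min (1 / 2) (κ * δ / 4) ≤ 1 / 2 := min_le_left _ _
  refine ⟨min (1 / 2) (κ * δ / 4), lt_min (by norm_num) (by positivity), hc1, ?_, ?_⟩
  · intro d Φ hΦ P hP hinj τ hτ
    have := hcount d
    have hd0 : (0 : ℝ) ≤ d := Nat.cast_nonneg d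
    have hfew := fun M : {M : Matrix (Fin (d + 1)) (Fin (d + 1)) ℤ // M.det ≠ 0} =>
      few_bad d Φ hΦ P hP hinj δ κ hδ hδ1 hκ M.1 M.2
    refine ⟨le_trans (dimH_mono ?_) (dim_of_few (τ := τ) hτ (by linarith) hfew), fun hd1 hτd => ?_⟩
    · intro α hα hcon
      exact hα fun M hM => hcon ⟨M, hM⟩
    · exact (ae_of_few hd1 hτ hτd hfew).mono fun α hα M hM => hα ⟨M, hM⟩
  · intro Φ hΦ P hP hinj
    have := hcount 1
    have hfew := fun M : {M : Matrix (Fin (1 + 1)) (Fin (1 + 1)) ℤ // M.det ≠ 0} =>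
      few_bad 1 Φ hΦ P hP hinj δ κ hδ hδ1 hκ M.1 M.2
    have hdim : dimH {α : ℝ | Irrational α ∧ ¬ ∀ M : Matrix (Fin 2) (Fin 2) ℤ, M.det ≠ 0 → ∀ᶠ n in atTop,
          Law Φ P δ κ ((α.convergent n).den : ℤ) (M.mulVec ![((α.convergent n).den : ℤ), (α.convergent n).num])} ≤
            ENNReal.ofReal (1 - min (1 / 2) (κ * δ / 4) / 2) := by
      refine le_trans (dimH_mono ?_) ((convergents_of_few (by push_cast; linarith) hfew).trans (le_of_eq ?_))
      · rintro α ⟨hirr, hα⟩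
        refine ⟨hirr, fun hcon => hα fun M hM => ?_⟩
        filter_upwards [hcon ⟨M, hM⟩] with n hn
        have h1 := not_not.1 hn
        simpa using h1
      · congr 1
        push_cast
        ring
    refine ⟨hdim, ?_⟩
    have h1 := ae_of_dim (by have : 0 < min (1 / 2) (κ * δ / 4) := lt_min (by norm_num) (by positivity)
                             linarith) hdim
    have h2 : ∀ᵐ α : ℝ, Irrational α := by
      have : volume (Set.range ((↑) : ℚ → ℝ)) = 0 := (Set.countable_range _).measure_zero _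
      rw [ae_iff]
      refine measure_mono_null (fun a ha => ?_) this
      exact not_not.1 ha
    filter_upwards [h1, h2] with α hα hirr
    by_contra hcon
    exact hα ⟨hirr, hcon⟩

end Pool.Agent.Results.MP_6ea630_nt.NumeratorsAndDenominators
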